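import Pool.Agent.H67.HM.Stm

open Polynomial MeasureTheory Filter Topology

namespace HM.CLOSE_aux

lemma cor_eq (A : ℂ[X]) (f : ℕ → ℂ) (k N : ℕ) (hN : A.natDegree < N) :
    cor A f k = ∑ j ∈ Finset.range N, A.coeff j * f (j + k) := by
  unfold cor
  apply Finset.sum_subset
  · intro j hj
    exact Finset.mem_range.2 (lt_of_le_of_lt (le_natDegree_of_mem_supp j hj) hN)
  · intro j _ hj
    rw [notMem_support_iff.1 hj, zero_mul]

lemma cor_add_left (A A' : ℂ[X]) (f : ℕ → ℂ) (k : ℕ) :
    cor (A + A') f k = cor A f k + cor A' f k := by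
  set N := A.natDegree + A'.natDegree + (A + A').natDegree + 1 with hN
  rw [cor_eq A f k N (by omega), cor_eq A' f k N (by omega), cor_eq (A + A') f k N (by omega),
    ← Finset.sum_add_distrib]
  refine Finset.sum_congr rfl fun j _ => ?_
  rw [coeff_add, add_mul]

lemma cor_add_right (A : ℂ[X]) (f g : ℕ → ℂ) (k : ℕ) :
    cor A (fun j => f j + g j) k = cor A f k + cor A g k := by
  unfold cor
  rw [← Finset.sum_add_distrib]
  exact Finset.sum_congr rfl fun j _ => by rw [mul_add]

/-- values on the circle -/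
lemma eval_le (A : ℂ[X]) (N : ℕ) (hN : A.natDegree < N) (z : ℂ) (hz : ‖z‖ = 1) :
    ‖A.eval z‖ ≤ ∑ j ∈ Finset.range N, ‖A.coeff j‖ := by
  rw [eval_eq_sum_range' hN]
  refine (norm_sum_le _ _).trans (le_of_eq (Finset.sum_congr rfl fun j _ => ?_))
  rw [norm_mul, norm_pow, hz, one_pow, mul_one]

lemma circle_est (w x : ℂ) (l : ℝ) (hl : 0 < l) (hw : |‖w‖ ^ 2 - l ^ 2| ≤ l ^ 2 / 16)
    (hx : ‖x‖ ≤ l / 50) : |‖w + x‖ ^ 2 - l ^ 2| ≤ l ^ 2 / 2 := by
  have h1 : ‖w + x‖ ≤ ‖w‖ + ‖x‖ := norm_add_le _ _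
  have h2 : ‖w‖ ≤ ‖w + x‖ + ‖x‖ := by
    have := norm_sub_le (w + x) x
    rwa [add_sub_cancel_right] at this
  have h0 := norm_nonneg (w + x)
  have h3 := norm_nonneg w
  have h4 := norm_nonneg x
  rw [abs_le] at hw ⊢
  have hw2 : ‖w‖ ≤ 2 * l := by
    have : ‖w‖ ^ 2 ≤ (2 * l) ^ 2 := by nlinarith [hw.2]
    exact abs_le_of_sq_le_sq' this (by positivity) |>.2
  have h5 : ‖w + x‖ ^ 2 ≤ (‖w‖ + ‖x‖) ^ 2 := by gcongr
  have h6 : ‖w‖ ^ 2 ≤ (‖w + x‖ + ‖x‖) ^ 2 := by gcongr
  have h7 : ‖x‖ * ‖w‖ ≤ (l / 50) * (2 * l) := by gcongr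
  have h8 : ‖x‖ ^ 2 ≤ (l / 50) ^ 2 := by gcongr
  have h9 : ‖x‖ * ‖w + x‖ ≤ ‖x‖ * (‖w‖ + ‖x‖) := by gcongr
  constructor
  · nlinarith
  · nlinarith

/-- sums of shifted sequences -/
lemma sum_shift (D n : ℕ) (g : ℕ → ℝ) (S : ℝ) (hS : ∀ n, ∑ k ∈ Finset.range n, g k ≤ S) :
    ∑ k ∈ Finset.range n, (if D ≤ k then g (k - D) else 0) ≤ S := by
  rcases le_total D n with h | h
  · rw [← Finset.sum_range_add_sum_Ico _ h]
    have h1 : ∑ k ∈ Finset.range D, (if D ≤ k then g (k - D) else 0) = 0 :=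
      Finset.sum_eq_zero fun k hk => if_neg (not_le.2 (Finset.mem_range.1 hk))
    rw [h1, zero_add, Finset.sum_Ico_eq_sum_range]
    refine le_trans (le_of_eq (Finset.sum_congr rfl fun k _ => ?_)) (hS (n - D))
    rw [if_pos (Nat.le_add_right _ _), Nat.add_sub_cancel_left]
  · have h1 : ∑ k ∈ Finset.range n, (if D ≤ k then g (k - D) else 0) = 0 :=
      Finset.sum_eq_zero fun k hk => if_neg (not_le.2 (lt_of_lt_of_le (Finset.mem_range.1 hk) h))
    rw [h1]
    simpa using hS 0

/-- small perturbations in `ℓ^q` -/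
lemma small_pert (a : ℕ → ℝ) (q : ℝ) (hq : 0 < q) (N : ℕ) (t : ℝ) (ht : 0 < t) :
    ∀ᶠ e : ℝ in 𝓝[>] 0, ∀ k ∈ Finset.range N, (a k + e) ^ q ≤ a k ^ q + t := by
  rw [Filter.eventually_all_finset]
  intro k _
  have hc : Continuous fun e : ℝ => (a k + e) ^ q :=
    (continuous_const.add continuous_id).rpow_const fun _ => Or.inr hq.le
  have h1 : Tendsto (fun e : ℝ => (a k + e) ^ q) (𝓝[>] 0) (𝓝 (a k ^ q)) := by
    have := hc.tendsto 0
    simp only [add_zero] at this
    exact this.mono_left nhdsWithin_le_nhds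
  filter_upwards [h1.eventually (eventually_le_nhds (show a k ^ q < a k ^ q + t by linarith))] with e he
  exact he

end HM.CLOSE_aux

namespace HM

open CLOSE_aux

set_option maxHeartbeats 1000000 in
theorem CLOSE_proved (hFLN : S_FLN) (hSEP : S_SEP) (hNEU : S_NEU) : S_CLOSE := by
  intro p hp1 hp2
  obtain ⟨K₀, hK₀, hN⟩ := hNEU p hp1 hp2
  set q : ℝ := p / (p - 1) with hq
  have hp10 : 0 < p - 1 := by linarith
  have hq2 : 2 < q := by rw [hq, lt_div_iff₀ hp10]; linarith
  have hq0 : 0 < q := by linarith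
  obtain ⟨C, hC, hF⟩ := hFLN q (by linarith)
  set s : ℝ := 1 / p - 1 / 2 with hs
  have hs0 : 0 < s := by
    rw [hs, sub_pos]; exact one_div_lt_one_div_of_lt (by linarith) hp2
  have hsq : s = 1 / 2 - 1 / q := by
    rw [hs, hq]; field_simp; ring
  set C' : ℝ := 2 + 16 * C with hC'
  have hC'0 : 0 < C' := by positivity
  refine ⟨2 * K₀ * C' ^ s * C ^ (1 / q), by positivity, ?_⟩
  intro m A F ε hε hAF B η hη
  set D : ℕ := B + A.natDegree + (∑ i, (F i).natDegree) + 1 with hD
  have hDF : ∀ i, (F i).natDegree < D := fun i => by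
    have : (F i).natDegree ≤ ∑ i, (F i).natDegree :=
      Finset.single_le_sum (f := fun i => (F i).natDegree) (fun _ _ => Nat.zero_le _)
        (Finset.mem_univ i)
    omega
  set a : ℝ := ∑ j ∈ Finset.range D, ‖A.coeff j‖ with ha
  -- choice of `n`
  obtain ⟨n, hnD, hna⟩ : ∃ n : ℕ, D ≤ n ∧ 100 * a ≤ C ^ (-(1 / q)) * (n : ℝ) ^ s := by
    have h1 : Tendsto (fun n : ℕ => C ^ (-(1 / q)) * (n : ℝ) ^ s) atTop atTop :=
      Tendsto.const_mul_atTop (by positivity)
        ((tendsto_rpow_atTop hs0).comp tendsto_natCast_atTop_atTop)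
    obtain ⟨n, h2, h3⟩ := ((eventually_ge_atTop D).and
      (h1.eventually (eventually_ge_atTop (100 * a)))).exists
    exact ⟨n, h2, h3⟩
  have hn1 : 1 ≤ n := by omega
  have hn0 : (0 : ℝ) < n := by exact_mod_cast (show 0 < n by omega)
  have hn1' : (1 : ℝ) ≤ n := by exact_mod_cast hn1
  set l : ℝ := C ^ (-(1 / q)) * (n : ℝ) ^ s with hl
  have hl0 : 0 < l := by positivity
  obtain ⟨c, hcdeg, hcq, -, hcz⟩ := hF n (1 / 16) hn1 (by norm_num) (by norm_num)
  -- the polynomial `A₁`
  set P : ℂ[X] := Polynomial.C (l : ℂ) * c * X ^ D with hP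
  have hPk : ∀ k, P.coeff k = if D ≤ k then (l : ℂ) * c.coeff (k - D) else 0 := by
    intro k
    rw [hP, coeff_mul_X_pow']
    split_ifs with h
    · rw [coeff_C_mul]
    · rfl
  set d : ℕ := D + c.natDegree with hd
  have hPdeg : P.natDegree ≤ d := by
    rw [natDegree_le_iff_coeff_eq_zero]
    intro k hk
    rw [hPk, if_pos (by omega), coeff_eq_zero_of_natDegree_lt (by omega), mul_zero]
  have hd0 : 0 < d := by omega
  have hdn : (d : ℝ) ≤ C' * n := by
    have h1 : (c.natDegree : ℝ) ≤ 16 * C * n := by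
      have : C * n / (1 / 16) = 16 * C * n := by ring
      linarith
    have h2 : (D : ℝ) ≤ n := by exact_mod_cast hnD
    rw [hd, Nat.cast_add, hC']
    nlinarith
  set A₁ : ℂ[X] := A + P with hA₁
  have hA₁deg : A₁.natDegree ≤ d := by
    refine (natDegree_add_le _ _).trans (max_le ?_ hPdeg)
    omega
  -- sums of `q`-th powers for `P`
  have hPq : ∀ N, ∑ k ∈ Finset.range N, ‖P.coeff k‖ ^ q ≤ 1 := by
    intro N
    have h1 : ∀ k, ‖P.coeff k‖ ^ q = if D ≤ k then (l ^ q * ‖c.coeff (k - D)‖ ^ q) else 0 := by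
      intro k
      rw [hPk]
      split_ifs with h
      · rw [norm_mul, Complex.norm_real, Real.norm_of_nonneg hl0.le,
          Real.mul_rpow hl0.le (norm_nonneg _)]
      · rw [norm_zero, Real.zero_rpow hq0.ne']
    rw [Finset.sum_congr rfl fun k _ => h1 k]
    refine sum_shift D N (fun k => l ^ q * ‖c.coeff k‖ ^ q) 1 ?_
    intro M
    rw [← Finset.mul_sum]
    have h2 := hcq M
    have h3 : l ^ q * (C * (n : ℝ) ^ (1 - q / 2)) = 1 := by
      rw [hl, Real.mul_rpow (by positivity) (by positivity), ← Real.rpow_mul hC.le,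
        ← Real.rpow_mul hn0.le]
      have h4 : -(1 / q) * q = -1 := by field_simp
      have h5 : s * q = -(1 - q / 2) := by rw [hsq]; field_simp; ring
      rw [h4, h5, Real.rpow_neg hn0.le, Real.rpow_neg_one]
      have h6 : (n : ℝ) ^ (1 - q / 2) ≠ 0 := (Real.rpow_pos_of_pos hn0 _).ne'
      field_simp
    calc l ^ q * ∑ i ∈ Finset.range M, ‖c.coeff i‖ ^ q ≤ l ^ q * (C * (n : ℝ) ^ (1 - q / 2)) := by
          gcongr
      _ = 1 := h3
  -- choice of the perturbation
  set S : ℝ := ∑ i, ∑ j ∈ Finset.range D, ‖(F i).coeff j‖ with hS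
  have hS0 : 0 ≤ S := Finset.sum_nonneg fun _ _ => Finset.sum_nonneg fun _ _ => norm_nonneg _
  have hSi : ∀ i, ∑ j ∈ Finset.range D, ‖(F i).coeff j‖ ≤ S := fun i =>
    Finset.single_le_sum (f := fun i => ∑ j ∈ Finset.range D, ‖(F i).coeff j‖)
      (fun _ _ => Finset.sum_nonneg fun _ _ => norm_nonneg _) (Finset.mem_univ i)
  obtain ⟨e, he0, heη, hel, heS, heq⟩ : ∃ e : ℝ, 0 < e ∧ e ≤ η ∧ (d + 1 : ℝ) * e ≤ l / 100 ∧
      D * (e * S) ^ 2 ≤ ε ^ 2 ∧
      ∀ k ∈ Finset.range (d + 1), (‖A₁.coeff k‖ + e) ^ q ≤ ‖A₁.coeff k‖ ^ q + 1 / (d + 1) := by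
    have h1 := small_pert (fun k => ‖A₁.coeff k‖) q hq0 (d + 1)
      (1 / (d + 1)) (by positivity)
    have h2 : ∀ᶠ e : ℝ in 𝓝[>] 0, e ≤ η :=
      (eventually_le_nhds hη).filter_mono nhdsWithin_le_nhds
    have h3 : ∀ᶠ e : ℝ in 𝓝[>] 0, (d + 1 : ℝ) * e ≤ l / 100 := by
      have : Tendsto (fun e : ℝ => (d + 1 : ℝ) * e) (𝓝[>] 0) (𝓝 ((d + 1 : ℝ) * 0)) :=
        ((continuous_const.mul continuous_id).tendsto 0).mono_left nhdsWithin_le_nhds
      rw [mul_zero] at this
      exact this.eventually (eventually_le_nhds (by positivity))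
    have h4 : ∀ᶠ e : ℝ in 𝓝[>] 0, D * (e * S) ^ 2 ≤ ε ^ 2 := by
      have : Tendsto (fun e : ℝ => D * (e * S) ^ 2) (𝓝[>] 0) (𝓝 (D * (0 * S) ^ 2)) :=
        ((continuous_const.mul ((continuous_id.mul continuous_const).pow 2)).tendsto 0).mono_left
          nhdsWithin_le_nhds
      rw [zero_mul, zero_pow two_ne_zero, mul_zero] at this
      exact this.eventually (eventually_le_nhds (by positivity))
    obtain ⟨e, g1, g2, g3, g4, g5⟩ := (h1.and (h2.and (h3.and (h4.and
      (eventually_mem_nhdsWithin (s := Set.Ioi (0 : ℝ)) (a := 0)))))).exists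
    exact ⟨e, g5, g2, g3, g4, g1⟩
  obtain ⟨G, hGs, hG0, hGdeg, hGA⟩ := hSEP A₁ e he0
  have hGd : G.natDegree ≤ d := hGdeg.trans hA₁deg
  set R : ℂ[X] := G - A₁ with hR
  have hGR : G = A₁ + R := by rw [hR]; ring
  have hRk : ∀ k, ‖R.coeff k‖ ≤ e := fun k => by rw [hR, coeff_sub]; exact hGA k
  have hRdeg : R.natDegree ≤ d := (natDegree_sub_le _ _).trans (max_le hGd hA₁deg)
  -- the circle
  have hcirc : ∀ z : ℂ, ‖z‖ = 1 → |‖G.eval z‖ ^ 2 - l ^ 2| ≤ l ^ 2 / 2 := by
    intro z hz
    have h1 : G.eval z = P.eval z + (A.eval z + R.eval z) := by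
      rw [hGR, hA₁, eval_add, eval_add]; ring
    rw [h1]
    apply circle_est _ _ l hl0
    · have h2 : ‖P.eval z‖ ^ 2 = l ^ 2 * ‖c.eval z‖ ^ 2 := by
        rw [hP, eval_mul, eval_mul, eval_C, eval_pow, eval_X, norm_mul, norm_mul, norm_pow, hz,
          one_pow, mul_one, Complex.norm_real, Real.norm_of_nonneg hl0.le, mul_pow]
      rw [h2]
      have h3 := hcz z hz
      have h4 : l ^ 2 * ‖c.eval z‖ ^ 2 - l ^ 2 = l ^ 2 * (‖c.eval z‖ ^ 2 - 1) := by ring
      rw [h4, abs_mul, abs_of_pos (by positivity : 0 < l ^ 2)]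
      nlinarith [sq_nonneg l]
    · have h2 : ‖A.eval z‖ ≤ a := eval_le A D (by omega) z hz
      have h3 : ‖R.eval z‖ ≤ (d + 1 : ℝ) * e := by
        refine (eval_le R (d + 1) (by omega) z hz).trans ?_
        refine (Finset.sum_le_sum fun j _ => hRk j).trans ?_
        rw [Finset.sum_const, Finset.card_range, nsmul_eq_mul]
        push_cast
        exact le_refl _
      have h4 := norm_add_le (A.eval z) (R.eval z)
      have h5 : a ≤ l / 100 := by linarith
      linarith
  -- the corrections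
  have hcorr : ∀ i, ∃ h : ℕ → ℂ, Bd p h ((K₀ * (d : ℝ) ^ (1 / p - 1 / 2) / l * (2 * ε)) ^ p) ∧
      ∀ k, cor G h k = - cor G (F i).coeff k := by
    intro i
    have hE : ∀ k, cor G (F i).coeff k = cor A (F i).coeff k + cor R (F i).coeff k := by
      intro k
      rw [hGR, cor_add_left, hA₁, cor_add_left]
      have : cor P (F i).coeff k = 0 := by
        rw [cor_eq P _ k (d + 1) (by omega)]
        refine Finset.sum_eq_zero fun j _ => ?_
        rw [hPk]
        split_ifs with h
        · rw [coeff_eq_zero_of_natDegree_lt (show (F i).natDegree < j + k by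
            have := hDF i; omega), mul_zero]
        · rw [zero_mul]
      rw [this, add_zero]
    have hbig : ∀ k, D ≤ k → ∀ Q : ℂ[X], cor Q (F i).coeff k = 0 := by
      intro k hk Q
      unfold cor
      refine Finset.sum_eq_zero fun j _ => ?_
      rw [coeff_eq_zero_of_natDegree_lt (show (F i).natDegree < j + k by
            have := hDF i; omega), mul_zero]
    have hRc : ∀ k, ‖cor R (F i).coeff k‖ ≤ if k < D then e * S else 0 := by
      intro k
      split_ifs with hk
      · rw [cor_eq R _ k (d + 1) (by omega)]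
        refine (norm_sum_le _ _).trans ?_
        have h1 : ∀ j ∈ Finset.range (d + 1), ‖R.coeff j * (F i).coeff (j + k)‖ ≤
            e * ‖(F i).coeff (j + k)‖ := fun j _ => by
          rw [norm_mul]; gcongr; exact hRk j
        refine (Finset.sum_le_sum h1).trans ?_
        rw [← Finset.mul_sum]
        refine mul_le_mul_of_nonneg_left ?_ he0.le
        refine le_trans ?_ (hSi i)
        have h2 : ∑ j ∈ Finset.range (d + 1), ‖(F i).coeff (j + k)‖ =
            ∑ j ∈ (Finset.range (d + 1)).image (· + k), ‖(F i).coeff j‖ := by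
          rw [Finset.sum_image]
          intro x _ y _ hxy
          simpa using hxy
        rw [h2]
        have h3 : ∑ j ∈ (Finset.range (d + 1)).image (· + k), ‖(F i).coeff j‖ =
            ∑ j ∈ ((Finset.range (d + 1)).image (· + k)).filter (· < D), ‖(F i).coeff j‖ := by
          rw [Finset.sum_filter]
          refine Finset.sum_congr rfl fun j _ => ?_
          split_ifs with h
          · rfl
          · rw [coeff_eq_zero_of_natDegree_lt (show (F i).natDegree < j by
              have := hDF i; omega), norm_zero]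
        rw [h3]
        refine Finset.sum_le_sum_of_subset_of_nonneg ?_ fun _ _ _ => norm_nonneg _
        intro j hj
        rw [Finset.mem_filter] at hj
        exact Finset.mem_range.2 hj.2
      · rw [hbig k (by omega) R, norm_zero]
    refine hN G l d (cor G (F i).coeff) (2 * ε) hl0 hd0 (by positivity) hGd hcirc ?_ ?_
    · intro k hk
      exact hbig k (by omega) G
    · intro N
      have h1 : ∀ k ∈ Finset.range N, ‖cor G (F i).coeff k‖ ^ (2 : ℝ) ≤
          2 * ‖cor A (F i).coeff k‖ ^ (2 : ℝ) + if k < D then 2 * (e * S) ^ 2 else 0 := by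
        intro k _
        rw [Real.rpow_two, Real.rpow_two, hE k]
        have h2 := norm_add_le (cor A (F i).coeff k) (cor R (F i).coeff k)
        have h3 := hRc k
        have h4 : ‖cor A (F i).coeff k + cor R (F i).coeff k‖ ^ 2 ≤
            (‖cor A (F i).coeff k‖ + ‖cor R (F i).coeff k‖) ^ 2 := by gcongr
        split_ifs at h3 ⊢ with hk
        · have h5 : ‖cor R (F i).coeff k‖ ^ 2 ≤ (e * S) ^ 2 := by gcongr
          nlinarith [sq_nonneg (‖cor A (F i).coeff k‖ - ‖cor R (F i).coeff k‖)]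
        · have h5 : ‖cor R (F i).coeff k‖ = 0 := le_antisymm h3 (norm_nonneg _)
          rw [h5] at h4
          nlinarith [sq_nonneg (‖cor A (F i).coeff k‖)]
      refine (Finset.sum_le_sum h1).trans ?_
      rw [Finset.sum_add_distrib, ← Finset.mul_sum]
      have h2 := hAF i N
      have h3 : ∑ k ∈ Finset.range N, (if k < D then 2 * (e * S) ^ 2 else 0) ≤
          D * (2 * (e * S) ^ 2) := by
        rw [← Finset.sum_filter, Finset.sum_const, nsmul_eq_mul]
        gcongr
        calc ((Finset.range N).filter (· < D)).card ≤ (Finset.range D).card := by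
              apply Finset.card_le_card
              intro j hj
              rw [Finset.mem_filter] at hj
              exact Finset.mem_range.2 hj.2
          _ = D := Finset.card_range D
      nlinarith
  choose h hh1 hh2 using hcorr
  refine ⟨G, fun i k => (F i).coeff k + h i k, hGs, hG0, ?_, ?_, ?_⟩
  · intro k hk
    have h1 : A₁.coeff k = A.coeff k := by
      rw [hA₁, coeff_add, hPk, if_neg (by omega), add_zero]
    rw [← h1]
    exact (hGA k).trans heη
  · intro N hN N'
    have h1 : ∀ k, ‖G.coeff k‖ ^ q ≤ (‖A.coeff k‖ ^ q + ‖P.coeff k‖ ^ q) +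
        if k < d + 1 then 1 / (d + 1 : ℝ) else 0 := by
      intro k
      have h2 : ‖A₁.coeff k‖ ^ q ≤ ‖A.coeff k‖ ^ q + ‖P.coeff k‖ ^ q := by
        rw [hA₁, coeff_add]
        rcases lt_or_ge k D with hk | hk
        · have : P.coeff k = 0 := by rw [hPk, if_neg (by omega)]
          rw [this, add_zero]
          have := Real.rpow_nonneg (norm_nonneg (0 : ℂ)) q
          linarith
        · have : A.coeff k = 0 := coeff_eq_zero_of_natDegree_lt (by omega)
          rw [this, zero_add]
          have := Real.rpow_nonneg (norm_nonneg (0 : ℂ)) q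
          linarith
      split_ifs with hk
      · have h3 := heq k (Finset.mem_range.2 hk)
        have h4 : ‖G.coeff k‖ ≤ ‖A₁.coeff k‖ + e := by
          have h5 := hGA k
          have h6 := norm_add_le (A₁.coeff k) (G.coeff k - A₁.coeff k)
          rw [add_sub_cancel] at h6
          linarith
        have h5 : ‖G.coeff k‖ ^ q ≤ (‖A₁.coeff k‖ + e) ^ q := by gcongr
        linarith
      · have h3 : G.coeff k = 0 := coeff_eq_zero_of_natDegree_lt (by omega)
        rw [h3, norm_zero, Real.zero_rpow hq0.ne']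
        positivity
    refine (Finset.sum_le_sum fun k _ => h1 k).trans ?_
    rw [Finset.sum_add_distrib, Finset.sum_add_distrib]
    have h2 := hN N'
    have h3 := hPq N'
    have h4 : ∑ k ∈ Finset.range N', (if k < d + 1 then 1 / (d + 1 : ℝ) else 0) ≤ 1 := by
      rw [← Finset.sum_filter, Finset.sum_const, nsmul_eq_mul]
      calc (((Finset.range N').filter (· < d + 1)).card : ℝ) * (1 / (d + 1 : ℝ)) ≤
          ((d + 1 : ℕ) : ℝ) * (1 / (d + 1 : ℝ)) := by
            gcongr
            calc ((Finset.range N').filter (· < d + 1)).card ≤ (Finset.range (d + 1)).card := by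
                  apply Finset.card_le_card
                  intro j hj
                  rw [Finset.mem_filter] at hj
                  exact Finset.mem_range.2 hj.2
              _ = d + 1 := Finset.card_range _
        _ = 1 := by push_cast; field_simp
    linarith
  · intro i
    constructor
    · have h1 : (fun k => (F i).coeff k + h i k - (F i).coeff k) = h i := by
        funext k; ring
      show Bd p (fun k => (F i).coeff k + h i k - (F i).coeff k) _
      rw [h1]
      intro N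
      refine (hh1 i N).trans ?_
      have hd' : (0 : ℝ) ≤ d := Nat.cast_nonneg _
      have h2 : K₀ * (d : ℝ) ^ (1 / p - 1 / 2) / l * (2 * ε) ≤
          2 * K₀ * C' ^ s * C ^ (1 / q) * ε := by
        have h3 : (d : ℝ) ^ (1 / p - 1 / 2) ≤ C' ^ s * (n : ℝ) ^ s := by
          rw [← hs, ← Real.mul_rpow hC'0.le hn0.le]
          exact Real.rpow_le_rpow hd' hdn hs0.le
        have h4 : C' ^ s * (n : ℝ) ^ s / l = C' ^ s * C ^ (1 / q) := by
          rw [hl, Real.rpow_neg hC.le]
          have h5 : (n : ℝ) ^ s ≠ 0 := (Real.rpow_pos_of_pos hn0 _).ne'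
          have h6 : C ^ (1 / q) ≠ 0 := (Real.rpow_pos_of_pos hC _).ne'
          field_simp
        calc K₀ * (d : ℝ) ^ (1 / p - 1 / 2) / l * (2 * ε) ≤
            K₀ * (C' ^ s * (n : ℝ) ^ s) / l * (2 * ε) := by gcongr
          _ = 2 * K₀ * (C' ^ s * (n : ℝ) ^ s / l) * ε := by ring
          _ = 2 * K₀ * C' ^ s * C ^ (1 / q) * ε := by rw [h4]; ring
      exact Real.rpow_le_rpow (by positivity) h2 (by linarith)
    · intro k
      show cor G (fun j => (F i).coeff j + h i j) k = 0
      rw [cor_add_right, hh2 i k, add_neg_cancel]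

end HM
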