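import Pool.Agent.H67.HM.Stm

open MeasureTheory Filter Topology ProbabilityTheory

namespace HM.MOM_aux

/-- the measure `e^(-at) g(t) dt` on the half line -/
noncomputable def nu (a : ℝ) (g : ℝ → ℝ) : Measure ℝ :=
  (volume.restrict (Set.Ioi (0 : ℝ))).withDensity
    (fun t => ENNReal.ofReal (Real.exp (-(a * t)) * g t))

lemma int_base (c : ℝ) (hc : 0 < c) (n : ℕ) :
    Integrable (fun t : ℝ => t ^ n * Real.exp (-(c * t))) (volume.restrict (Set.Ioi 0)) := by
  have h := integrableOn_rpow_mul_exp_neg_mul_rpow (p := 1) (s := n) (b := c)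
    (lt_of_lt_of_le (by norm_num) (Nat.cast_nonneg n)) one_pos hc
  refine h.congr (ae_of_all _ fun t => ?_)
  simp only [Real.rpow_natCast, Real.rpow_one, neg_mul]

lemma int_bdd (c : ℝ) (hc : 0 < c) (n : ℕ) (g : ℝ → ℝ) (hg : Continuous g) (M : ℝ)
    (hM : ∀ t, |g t| ≤ M) :
    Integrable (fun t : ℝ => t ^ n * Real.exp (-(c * t)) * g t) (volume.restrict (Set.Ioi 0)) := by
  exact (int_base c hc n).mul_bdd (c := M) hg.aestronglyMeasurable (ae_of_all _ fun t => hM t)

variable {a : ℝ} {g : ℝ → ℝ}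

lemma integrable_nu_iff {E : Type*} [NormedAddCommGroup E] [NormedSpace ℝ E] (hg : Continuous g)
    (h0 : ∀ t, 0 ≤ g t) (f : ℝ → E) :
    Integrable f (nu a g) ↔
      Integrable (fun t => (Real.exp (-(a * t)) * g t) • f t) (volume.restrict (Set.Ioi 0)) := by
  unfold nu
  rw [integrable_withDensity_iff_integrable_smul' (by fun_prop)
    (ae_of_all _ fun t => ENNReal.ofReal_lt_top)]
  simp_rw [ENNReal.toReal_ofReal (mul_nonneg (Real.exp_pos _).le (h0 _))]

lemma integral_nu {E : Type*} [NormedAddCommGroup E] [NormedSpace ℝ E] (hg : Continuous g)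
    (h0 : ∀ t, 0 ≤ g t) (f : ℝ → E) :
    ∫ t, f t ∂(nu a g) = ∫ t in Set.Ioi (0 : ℝ), (Real.exp (-(a * t)) * g t) • f t := by
  unfold nu
  rw [integral_withDensity_eq_integral_toReal_smul (by fun_prop)
    (ae_of_all _ fun t => ENNReal.ofReal_lt_top)]
  simp_rw [ENNReal.toReal_ofReal (mul_nonneg (Real.exp_pos _).le (h0 _))]

lemma mem_expSet (hg : Continuous g) (h0 : ∀ t, 0 ≤ g t) (M : ℝ) (hM : ∀ t, |g t| ≤ M) (c : ℝ)
    (hc : c < a) : c ∈ integrableExpSet id (nu a g) := by
  show Integrable (fun t => Real.exp (c * id t)) (nu a g)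
  rw [integrable_nu_iff hg h0]
  refine (int_bdd (a - c) (by linarith) 0 g hg M hM).congr (ae_of_all _ fun t => ?_)
  simp only [pow_zero, one_mul, smul_eq_mul, id]
  have : Real.exp (-((a - c) * t)) = Real.exp (-(a * t)) * Real.exp (c * t) := by
    rw [← Real.exp_add]; ring_nf
  rw [this]; ring

lemma finite_nu (ha : 0 < a) (hg : Continuous g) (h0 : ∀ t, 0 ≤ g t) (M : ℝ) (hM : ∀ t, |g t| ≤ M) :
    IsFiniteMeasure (nu a g) := by
  have h := mem_expSet hg h0 M hM 0 ha
  have h1 : Integrable (fun _ : ℝ => (1 : ℝ)) (nu a g) := by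
    have h2 : Integrable (fun t => Real.exp (0 * id t)) (nu a g) := h
    simpa using h2
  rw [integrable_const_iff] at h1
  rcases h1 with h1 | h1
  · exact absurd h1 one_ne_zero
  · exact h1

lemma interior_sub (hg : Continuous g) (h0 : ∀ t, 0 ≤ g t) (M : ℝ) (hM : ∀ t, |g t| ≤ M) :
    Set.Iio a ⊆ interior (integrableExpSet id (nu a g)) :=
  isOpen_Iio.subset_interior_iff.2 fun c hc => mem_expSet hg h0 M hM c hc

lemma deriv_nu (ha : 0 < a) (hg : Continuous g) (h0 : ∀ t, 0 ≤ g t) (M : ℝ) (hM : ∀ t, |g t| ≤ M)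
    (n : ℕ) : iteratedDeriv n (complexMGF id (nu a g)) 0 =
      ((∫ t in Set.Ioi (0 : ℝ), t ^ n * Real.exp (-(a * t)) * g t : ℝ) : ℂ) := by
  rw [iteratedDeriv_complexMGF (by simpa using interior_sub hg h0 M hM ha), integral_nu hg h0,
    ← integral_complex_ofReal]
  refine integral_congr_ae (ae_of_all _ fun t => ?_)
  simp only [zero_mul, Complex.exp_zero, mul_one, id, Complex.real_smul]
  push_cast
  ring

/-- the real case with a continuous function on the whole line -/
lemma real_case (ha : 0 < a) (u : ℝ → ℝ) (hu : Continuous u) (C : ℝ) (hC : ∀ t, |u t| ≤ C)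
    (h : ∀ n : ℕ, ∫ t in Set.Ioi (0 : ℝ), t ^ n * Real.exp (-(a * t)) * u t = 0) :
    ∀ t, 0 ≤ t → u t = 0 := by
  set g₁ : ℝ → ℝ := fun t => u t + C with hg₁
  set g₂ : ℝ → ℝ := fun _ => C with hg₂
  have hC0 : 0 ≤ C := (abs_nonneg _).trans (hC 0)
  have c1 : Continuous g₁ := hu.add continuous_const
  have c2 : Continuous g₂ := continuous_const
  have p1 : ∀ t, 0 ≤ g₁ t := fun t => by have := (abs_le.1 (hC t)).1; simp only [hg₁]; linarith
  have p2 : ∀ t, 0 ≤ g₂ t := fun t => hC0
  have b1 : ∀ t, |g₁ t| ≤ 2 * C := fun t => by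
    rw [abs_of_nonneg (p1 t)]; have := (abs_le.1 (hC t)).2; simp only [hg₁]; linarith
  have b2 : ∀ t, |g₂ t| ≤ C := fun t => by rw [abs_of_nonneg (p2 t)]
  have hder : ∀ n : ℕ, iteratedDeriv n (complexMGF id (nu a g₁)) 0 =
      iteratedDeriv n (complexMGF id (nu a g₂)) 0 := by
    intro n
    rw [deriv_nu ha c1 p1 _ b1, deriv_nu ha c2 p2 _ b2]
    congr 1
    have h1 : ∀ t : ℝ, t ^ n * Real.exp (-(a * t)) * g₁ t =
        t ^ n * Real.exp (-(a * t)) * u t + t ^ n * Real.exp (-(a * t)) * g₂ t := by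
      intro t; simp only [hg₁, hg₂]; ring
    simp_rw [h1]
    rw [integral_add (int_bdd a ha n u hu C hC) (int_bdd a ha n g₂ c2 C b2), h n, zero_add]
  have A1 : AnalyticOnNhd ℂ (complexMGF id (nu a g₁)) {z : ℂ | z.re < a} := fun z hz =>
    analyticOnNhd_complexMGF z (interior_sub c1 p1 _ b1 hz)
  have A2 : AnalyticOnNhd ℂ (complexMGF id (nu a g₂)) {z : ℂ | z.re < a} := fun z hz =>
    analyticOnNhd_complexMGF z (interior_sub c2 p2 _ b2 hz)
  have h0 : (0 : ℂ) ∈ {z : ℂ | z.re < a} := by simpa using ha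
  have hev : complexMGF id (nu a g₁) =ᶠ[𝓝 0] complexMGF id (nu a g₂) := by
    have f1 := (A1 0 h0).hasFPowerSeriesAt
    have f2 := (A2 0 h0).hasFPowerSeriesAt
    simp_rw [hder] at f1
    have f3 := f1.sub f2
    rw [sub_self] at f3
    filter_upwards [f3.eventually_eq_zero] with z hz
    exact sub_eq_zero.1 hz
  have heq := A1.eqOn_of_preconnected_of_eventuallyEq A2
    (convex_halfSpace_re_lt a).isPreconnected h0 hev
  have := finite_nu ha c1 p1 _ b1
  have := finite_nu ha c2 p2 _ b2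
  have hnu : nu a g₁ = nu a g₂ := by
    apply Measure.ext_of_charFun
    funext t
    rw [← complexMGF_id_mul_I, ← complexMGF_id_mul_I]
    exact heq (by simpa using ha)
  have hae : (fun t => ENNReal.ofReal (Real.exp (-(a * t)) * g₁ t)) =ᵐ[volume.restrict (Set.Ioi 0)]
      (fun t => ENNReal.ofReal (Real.exp (-(a * t)) * g₂ t)) := by
    rwa [nu, nu, withDensity_eq_iff_of_sigmaFinite (by fun_prop) (by fun_prop)] at hnu
  have hae2 : u =ᵐ[volume.restrict (Set.Ici (0 : ℝ))] fun _ => (0 : ℝ) := by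
    rw [← restrict_Ioi_eq_restrict_Ici]
    filter_upwards [hae] with t ht
    rw [ENNReal.ofReal_eq_ofReal_iff (mul_nonneg (Real.exp_pos _).le (p1 t))
      (mul_nonneg (Real.exp_pos _).le (p2 t))] at ht
    have := mul_left_cancel₀ (Real.exp_pos _).ne' ht
    simp only [hg₁, hg₂] at this
    linarith
  intro t ht
  exact Measure.eqOn_of_ae_eq hae2 hu.continuousOn continuousOn_const
    (by rw [interior_Ici, closure_Ioi]) ht

end HM.MOM_aux

namespace HM

open MOM_aux

theorem MOM_proved : S_MOM := by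
  intro a u C ha hu hC h t ht
  set v : ℝ → ℂ := fun t => u (max t 0) with hv
  have hvc : Continuous v := by
    rw [← continuousOn_univ]
    have h1 : Continuous fun t : ℝ => max t 0 := by fun_prop
    exact ContinuousOn.comp (t := Set.Ici (0 : ℝ)) hu h1.continuousOn fun x _ =>
      le_max_right (x : ℝ) 0
  have hvC : ∀ t, ‖v t‖ ≤ C := fun t => hC _ (le_max_right _ _)
  have hvu : ∀ t, 0 ≤ t → v t = u t := fun t ht => by simp only [hv, max_eq_left ht]
  have hint : ∀ n : ℕ, Integrable (fun t : ℝ => ((t ^ n * Real.exp (-(a * t)) : ℝ) : ℂ) * v t)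
      (volume.restrict (Set.Ioi 0)) := by
    intro n
    exact ((int_base a ha n).ofReal (𝕜 := ℂ)).mul_bdd (c := C) hvc.aestronglyMeasurable
      (ae_of_all _ hvC)
  have hz : ∀ n : ℕ, ∫ t in Set.Ioi (0 : ℝ), ((t ^ n * Real.exp (-(a * t)) : ℝ) : ℂ) * v t = 0 := by
    intro n
    rw [← h n]
    refine setIntegral_congr_fun measurableSet_Ioi fun t ht => ?_
    simp only [hvu t (le_of_lt ht)]
  have hre : ∀ t, 0 ≤ t → (v t).re = 0 := by
    apply real_case ha (fun t => (v t).re) (Complex.continuous_re.comp hvc) C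
      (fun t => (Complex.abs_re_le_norm _).trans (hvC t))
    intro n
    have h1 := integral_re (hint n)
    rw [hz n] at h1
    refine Eq.trans ?_ (h1.trans (by simp))
    refine integral_congr_ae (ae_of_all _ fun t => ?_)
    exact (Complex.re_ofReal_mul _ _).symm
  have him : ∀ t, 0 ≤ t → (v t).im = 0 := by
    apply real_case ha (fun t => (v t).im) (Complex.continuous_im.comp hvc) C
      (fun t => (Complex.abs_im_le_norm _).trans (hvC t))
    intro n
    have h1 := integral_im (hint n)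
    rw [hz n] at h1
    refine Eq.trans ?_ (h1.trans (by simp))
    refine integral_congr_ae (ae_of_all _ fun t => ?_)
    exact (Complex.im_ofReal_mul _ _).symm
  rw [← hvu t ht]
  exact Complex.ext (hre t ht) (him t ht)

end HM
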